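import Pool.Agent.H99.CS.Main

/-!
# MP_4abb39_lc: the countable union theorem does not imply M(C, S)

There is a countable transitive model of ZF in which countable unions of countable sets are
countable, and in which some compact metrizable space has no countable dense subset. So Q1 has a
negative answer.

The model is a symmetric submodel of a Cohen extension. The generic object is a point of the
product of the circles `T` with the index set `Option ℕ × ℕ`: there are parameters `c j` and, for
each `n`, points `y n j` of the circle. The symmetries permute finitely many of the points of each
row and translate each row by a continuous function of finitely many of the parameters
(`Pool.Agent.H99.CS.Grp`); the supports are finite sets of coordinates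
(`Pool.Agent.H99.CS.Cond`). The model knows for each `n` the set of the translates of the dense set
`{y n j : j ∈ ℕ}`, but has no sequence of such translates. The space is the one-point
compactification of the union of the circles whose points are these translates
(`Pool.Agent.H99.CS.Spc`, `Pool.Agent.H99.CS.Top`).

The countable union theorem holds in the model because each element of a countable set has a
name whose support is the support of the set alone (`Pool.Agent.H99.CS.Small`,
`Pool.Agent.H99.CS.Big`, `Pool.Agent.H99.CS.Core`), so the elements of the countable sets of the
family have a common enumeration (`Pool.Agent.H99.CS.Cuc`).
-/

set_option autoImplicit false

namespace Pool.Agent.Results.MP_4abb39_lc.CountableUnionNotSeparable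

open Pool.Agent.W868 Pool.Agent.R598.CI Pool.Agent.H99.CS

/-- There is a countable transitive model `M` of ZF such that in `M` the union of each countable
family of countable sets is countable, and in `M` there is a compact metrizable space without
a countable dense subset. -/
theorem result : ∃ M : Set ZFSet.{0}, M.Countable ∧ IsZF M ∧ CUC M ∧ ¬ MCSep M :=
  Pool.Agent.H99.CS.main

end Pool.Agent.Results.MP_4abb39_lc.CountableUnionNotSeparable
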